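import Mathlib

/-!
# Homogeneous non-Hausdorff manifolds are not unions of few open Hausdorff subsets

If a homogeneous non-Hausdorff manifold `M` of dimension `n` is covered by a family `U i` of open
Hausdorff subsets, then `ℝ^n` is covered by closed nowhere dense sets indexed by the same family.
So `OH(M)` is at least the covering number of the ideal of meagre sets, in particular uncountable.
-/

open Topology Set

universe u v

namespace Pool.Agent.Results.MP_e9190d_gt.BaireBound

/-- A topological `n`-manifold: connected and locally homeomorphic to `ℝ^n`.  The Hausdorff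
property is not assumed. -/
structure IsManifold (n : ℕ) (M : Type u) [TopologicalSpace M] : Prop where
  connected : ConnectedSpace M
  charts : ∀ x : M, ∃ V : Set M, IsOpen V ∧ x ∈ V ∧ Nonempty (V ≃ₜ EuclideanSpace ℝ (Fin n))

/-- A homogeneous non-Hausdorff `n`-manifold. -/
structure IsHNH (n : ℕ) (M : Type u) [TopologicalSpace M] : Prop where
  manifold : IsManifold n M
  homogeneous : ∀ x y : M, ∃ h : M ≃ₜ M, h x = y
  nonHausdorff : ¬ T2Space M

/-- `x` and `y` are distinct and cannot be separated by disjoint open sets. -/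
def NonSep {M : Type u} [TopologicalSpace M] (x y : M) : Prop :=
  x ≠ y ∧ ∀ U V : Set M, IsOpen U → IsOpen V → x ∈ U → y ∈ V → (U ∩ V).Nonempty

lemma exists_partner {M : Type u} [TopologicalSpace M] (h2 : ¬ T2Space M)
    (hom : ∀ x y : M, ∃ h : M ≃ₜ M, h x = y) (x : M) : ∃ y, NonSep x y := by
  have : ∃ a b : M, NonSep a b := by
    by_contra hcon
    push Not at hcon
    apply h2
    constructor
    intro a b hab
    have := hcon a b
    unfold NonSep at this
    push Not at this
    obtain ⟨U, V, hU, hV, ha, hb, hUV⟩ := this hab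
    exact ⟨U, V, hU, hV, ha, hb, Set.disjoint_iff_inter_eq_empty.2 hUV⟩
  obtain ⟨a, b, hab, hsep⟩ := this
  obtain ⟨h, hh⟩ := hom a x
  refine ⟨h b, ?_, ?_⟩
  · rw [← hh]
    exact fun e => hab (h.injective e)
  · intro U V hU hV hx hy
    obtain ⟨z, hz1, hz2⟩ := hsep (h ⁻¹' U) (h ⁻¹' V) (hU.preimage h.continuous)
      (hV.preimage h.continuous) (by rw [Set.mem_preimage, hh]; exact hx) hy
    exact ⟨h z, hz1, hz2⟩

/-- If a homogeneous non-Hausdorff manifold is covered by open Hausdorff subsets `U i`, `i : I`,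
then Euclidean space of the same dimension is covered by closed sets with empty interior indexed
by `I`, and the index set `I` is uncountable. -/
theorem result (n : ℕ) (M : Type u) [TopologicalSpace M] (hM : IsHNH n M)
    (I : Type v) (U : I → Set M) (hU : ∀ i, IsOpen (U i)) (hT : ∀ i, T2Space (U i))
    (hcov : ⋃ i, U i = Set.univ) :
    (∃ F : I → Set (EuclideanSpace ℝ (Fin n)),
      (∀ i, IsClosed (F i) ∧ interior (F i) = ∅) ∧ ⋃ i, F i = Set.univ) ∧ Uncountable I := by
  have key : ∃ F : I → Set (EuclideanSpace ℝ (Fin n)),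
      (∀ i, IsClosed (F i) ∧ interior (F i) = ∅) ∧ ⋃ i, F i = Set.univ := by
    have := hM.manifold.connected
    obtain ⟨x0⟩ : Nonempty M := inferInstance
    obtain ⟨V, hV, -, ⟨e⟩⟩ := hM.manifold.charts x0
    -- the embedding of Euclidean space
    let g : EuclideanSpace ℝ (Fin n) → M := fun p => (e.symm p : M)
    have hg : IsOpenEmbedding g := hV.isOpenEmbedding_subtypeVal.comp e.symm.isOpenEmbedding
    refine ⟨fun i => g ⁻¹' (frontier (U i)), ?_, ?_⟩
    · intro i
      refine ⟨isClosed_frontier.preimage hg.continuous, ?_⟩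
      rw [← hg.isOpenMap.preimage_interior_eq_interior_preimage hg.continuous,
        ← frontier_compl, interior_frontier (hU i).isClosed_compl, Set.preimage_empty]
    · rw [Set.eq_univ_iff_forall]
      intro p
      obtain ⟨y, hne, hy⟩ := exists_partner hM.nonHausdorff hM.homogeneous (g p)
      have hyU : y ∈ ⋃ i, U i := hcov ▸ Set.mem_univ y
      obtain ⟨i, hi⟩ := Set.mem_iUnion.1 hyU
      rw [Set.mem_iUnion]
      refine ⟨i, ?_⟩
      rw [Set.mem_preimage, (hU i).frontier_eq]
      constructor
      · rw [mem_closure_iff]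
        intro O hO hx
        exact hy O (U i) hO (hU i) hx hi
      · intro hx
        have := hT i
        obtain ⟨A, B, hA, hB, hxA, hyB, hAB⟩ :=
          t2_separation (x := (⟨g p, hx⟩ : U i)) (y := ⟨y, hi⟩)
            (fun h => hne (congrArg Subtype.val h))
        obtain ⟨A', hA', rfl⟩ := isOpen_induced_iff.1 hA
        obtain ⟨B', hB', rfl⟩ := isOpen_induced_iff.1 hB
        obtain ⟨z, hz1, hz2⟩ := hy (A' ∩ U i) (B' ∩ U i) (hA'.inter (hU i)) (hB'.inter (hU i))
          ⟨hxA, hx⟩ ⟨hyB, hi⟩
        have hz : (⟨z, hz1.2⟩ : U i) ∈ Subtype.val ⁻¹' A' := hz1.1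
        exact Set.disjoint_left.1 hAB hz hz2.1
  refine ⟨key, ?_⟩
  obtain ⟨F, hF, hcovF⟩ := key
  by_contra hcount
  rw [not_uncountable_iff] at hcount
  obtain ⟨i, hi⟩ := nonempty_interior_of_iUnion_of_closed (fun i => (hF i).1) hcovF
  rw [(hF i).2] at hi
  exact Set.not_nonempty_empty hi

end Pool.Agent.Results.MP_e9190d_gt.BaireBound
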